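import Pool.Agent.H620.Gen.Side
import Pool.Agent.H620.Gen.Neg

/-!
# The basins of the three negative cycles of the Collatz map

For `c = -1, -5, -17` let `A c` be the set of the positive integers `n` such that the trajectory of `-n` reaches `c`. These
are three disjoint infinite sets, which are known to have positive densities, and the conjecture says that they
cover the positive integers. Let `B S N` be the number of the `n ≤ N` such that exactly one of `n`, `n + 1` belongs to `S`.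

We determine `B (A c) N`, for each of the three basins and unconditionally, up to a power of `log log N` with any exponent
greater than `1`: it is at most `K N / √log N`, and it is larger than `K N / (√log N (log log N) ^ a)` for infinitely many `N`, for
all `K` and all `a > 1`. The same holds for the union of the three basins if the conjecture is false, so the conjecture is
equivalent to the bound `O (N / (√log N (log log N) ^ a))` for the union.

The upper bound comes from the rate of coalescence of the trajectories of neighbours (library, `Pair.invariant`), and the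
existence of densities from the library as well (`H499R2.ND`). The proof of the lower bound: let `W y` say that the
integral part of the real number `y` is in `S`. If the boundary is thin then, for most `y` in `[x, 2 x]`, `2 ^ t ≤ x < 2 ^ (t + 1)`,
the trajectory gives `W y ↔ W (3 ^ a / 2 ^ t y + O(1))`, where `a` is the number of odd steps, and `a` can be replaced by `t / 2`, as
`|a - t / 2|` is of the order `√t` and `W (3 z) ↔ W z` except near the boundary. Iteration down to a bounded scale gives intervals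
in which `S` has density `0` or `1` up to `ε`, a contradiction to the existence of the density. The offsets `O(1)` are controlled
by their moments of order `p`, `1 < p` close to `1`, and the losses at each stage are optimised, which gives all exponents `a > 1`.
-/

set_option autoImplicit false

namespace Pool.Agent.Results.MP_005f52_nt.NegativeBasins

open Filter

/-- The Collatz map on the integers. -/
def C (x : ℤ) : ℤ := if x % 2 = 0 then x / 2 else 3 * x + 1

/-- The Syracuse map on the odd integers. -/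
def Syr (x : ℤ) : ℤ := (3 * x + 1) / 2 ^ padicValInt 2 (3 * x + 1)

/-- The elements of the three cycles of `Syr`. -/
def Cyc : Set ℤ := {-1, -5, -7, -17, -25, -37, -55, -41, -61, -91}

/-- The set of the positive integers `n` such that the trajectory of `-n` under the Collatz map reaches `c`. -/
def A (c : ℤ) : Set ℕ := {n | 1 ≤ n ∧ ∃ k : ℕ, C^[k] (-(n : ℤ)) = c}

/-- The number of the `n`, `1 ≤ n ≤ N`, such that exactly one of `n`, `n + 1` belongs to `S`. -/
noncomputable def B (S : Set ℕ) (N : ℕ) : ℕ := {n : ℕ | 1 ≤ n ∧ n ≤ N ∧ ¬ (n ∈ S ↔ n + 1 ∈ S)}.ncard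

/-- The bound `N / (√log N (log log N) ^ a)`. -/
noncomputable def h (a : ℝ) (N : ℕ) : ℝ := N / (√(Real.log N) * Real.log (Real.log N) ^ a)

open Pool.Agent.H620

/-- The set of the integers whose trajectory reaches one of the given odd integers. -/
def Z (F : Set ℤ) : Set ℤ := {x | ∃ k : ℕ, C^[k] x ∈ F}

theorem Td_eq (x : ℤ) : (Pool.Agent.H499R2.ND.Td 1 x = C x) ∨
    (Pool.Agent.H499R2.ND.Td 1 x = C (C x) ∧ x % 2 = 1) := by
  unfold Pool.Agent.H499R2.ND.Td C
  by_cases h : x % 2 = 0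
  · left; rw [if_pos h, if_pos h]
  · right
    rw [if_neg h, if_neg h, if_pos (by omega)]
    exact ⟨rfl, by omega⟩

theorem Z_C {F : Set ℤ} (hF : ∀ x ∈ F, ∃ k : ℕ, C^[k] (C x) ∈ F) (x : ℤ) : x ∈ Z F ↔ C x ∈ Z F := by
  constructor
  · rintro ⟨k, hk⟩
    rcases k with _ | k
    · obtain ⟨j, hj⟩ := hF x hk
      exact ⟨j, hj⟩
    · exact ⟨k, by rw [Function.iterate_succ_apply] at hk; exact hk⟩
  · rintro ⟨k, hk⟩
    exact ⟨k + 1, by rw [Function.iterate_succ_apply]; exact hk⟩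

theorem Z_inv {F : Set ℤ} (hF : ∀ x ∈ F, ∃ k : ℕ, C^[k] (C x) ∈ F) : Pool.Agent.H499R2.ND.Inv 1 (Z F) := by
  intro x
  rcases Td_eq x with h | ⟨h, _⟩
  · rw [h]; exact Z_C hF x
  · rw [h, ← Z_C hF (C x)]; exact Z_C hF x

theorem mem_A {c : ℤ} {n : ℕ} (hn : 1 ≤ n) : n ∈ A c ↔ -1 * (n : ℤ) ∈ Z {c} := by
  rw [neg_one_mul]
  constructor
  · rintro ⟨_, k, hk⟩; exact ⟨k, hk⟩
  · rintro ⟨k, hk⟩; exact ⟨hn, k, hk⟩

theorem cyc1 : ∀ x ∈ ({-1} : Set ℤ), ∃ k : ℕ, C^[k] (C x) ∈ ({-1} : Set ℤ) := by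
  rintro x rfl; exact ⟨1, by decide⟩

theorem cyc5 : ∀ x ∈ ({-5} : Set ℤ), ∃ k : ℕ, C^[k] (C x) ∈ ({-5} : Set ℤ) := by
  rintro x rfl; exact ⟨4, by decide⟩

theorem cyc17 : ∀ x ∈ ({-17} : Set ℤ), ∃ k : ℕ, C^[k] (C x) ∈ ({-17} : Set ℤ) := by
  rintro x rfl; exact ⟨17, by decide⟩

/-- A trajectory cannot reach two of the three numbers. -/
theorem sep_iter {F : Set ℤ} (hF : ∀ x ∈ F, C x ∈ F) {x : ℤ} (hx : x ∈ F) (k : ℕ) : C^[k] x ∈ F := by
  induction k generalizing x with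
  | zero => exact hx
  | succ k ih => rw [Function.iterate_succ_apply]; exact ih (hF x hx)

def F1 : Finset ℤ := {-1, -2}
def F5 : Finset ℤ := {-5, -14, -7, -20, -10}
def F17 : Finset ℤ := {-17, -50, -25, -74, -37, -110, -55, -164, -82, -41, -122, -61, -182, -91, -272, -136, -68, -34}

theorem not_reach {F : Finset ℤ} (hF : ∀ x ∈ F, C x ∈ F) {x c : ℤ} (hx : x ∈ F) (hc : c ∉ F) : x ∉ Z {c} := by
  rintro ⟨k, hk⟩
  have h1 := sep_iter (F := (F : Set ℤ)) (fun x hx => hF x hx) hx k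
  rw [Set.mem_singleton_iff] at hk
  rw [hk] at h1
  exact hc h1

theorem basin {c : ℤ} (hc : c = -1 ∨ c = -5 ∨ c = -17) : Pool.Agent.H499R2.ND.Inv 1 (Z {c}) ∧
    (∃ a, 0 < (-1 : ℤ) * a ∧ a ∈ Z {c}) ∧ (∃ a, 0 < (-1 : ℤ) * a ∧ a ∉ Z {c}) := by
  rcases hc with rfl | rfl | rfl
  · exact ⟨Z_inv cyc1, ⟨-1, by norm_num, 0, rfl⟩, -5, by norm_num,
      not_reach (F := F5) (by decide) (by decide) (by decide)⟩
  · exact ⟨Z_inv cyc5, ⟨-5, by norm_num, 0, rfl⟩, -1, by norm_num,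
      not_reach (F := F1) (by decide) (by decide) (by decide)⟩
  · exact ⟨Z_inv cyc17, ⟨-17, by norm_num, 0, rfl⟩, -1, by norm_num,
      not_reach (F := F1) (by decide) (by decide) (by decide)⟩

/-- The union of the three basins. -/
def U : Set ℕ := A (-1) ∪ A (-5) ∪ A (-17)

def F3 : Set ℤ := {-1, -5, -17}

theorem cyc3 : ∀ x ∈ F3, ∃ k : ℕ, C^[k] (C x) ∈ F3 := by
  rintro x (rfl | rfl | rfl)
  · exact ⟨1, by left; decide⟩
  · exact ⟨4, by right; left; decide⟩
  · exact ⟨17, by right; right; decide⟩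

theorem mem_U {n : ℕ} (hn : 1 ≤ n) : n ∈ U ↔ -1 * (n : ℤ) ∈ Z F3 := by
  rw [neg_one_mul]
  constructor
  · rintro ((⟨_, k, hk⟩ | ⟨_, k, hk⟩) | ⟨_, k, hk⟩)
    · exact ⟨k, by rw [hk]; left; rfl⟩
    · exact ⟨k, by rw [hk]; right; left; rfl⟩
    · exact ⟨k, by rw [hk]; right; right; rfl⟩
  · rintro ⟨k, hk | hk | hk⟩
    · exact Or.inl (Or.inl ⟨hn, k, hk⟩)
    · exact Or.inl (Or.inr ⟨hn, k, hk⟩)
    · exact Or.inr ⟨hn, k, hk⟩

theorem C_eq : C = Neg.C := rfl

theorem conj_iff : (∀ x : ℤ, x < 0 → Odd x → ∃ k : ℕ, Syr^[k] x ∈ Cyc) ↔ ∀ n : ℕ, 1 ≤ n → n ∈ U := by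
  have h := Neg.conj_iff
  constructor
  · intro g n hn
    obtain ⟨k, hk⟩ := h.1 g n hn
    rcases hk with hk | hk | hk
    · exact Or.inl (Or.inl ⟨hn, k, hk⟩)
    · exact Or.inl (Or.inr ⟨hn, k, hk⟩)
    · exact Or.inr ⟨hn, k, hk⟩
  · intro g
    apply h.2
    intro n hn
    rcases g n hn with ((⟨_, k, hk⟩ | ⟨_, k, hk⟩) | ⟨_, k, hk⟩)
    · exact ⟨k, Or.inl hk⟩
    · exact ⟨k, Or.inr (Or.inl hk)⟩
    · exact ⟨k, Or.inr (Or.inr hk)⟩

theorem B_eq {S : Set ℕ} {S' : Set ℤ} (h : ∀ n : ℕ, 1 ≤ n → (n ∈ S ↔ -1 * (n : ℤ) ∈ S')) (N : ℕ) :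
    B S N = {n : ℕ | 1 ≤ n ∧ n ≤ N ∧ ¬ ((-1 : ℤ) * (n : ℤ) ∈ S' ↔ (-1 : ℤ) * ((n + 1 : ℕ) : ℤ) ∈ S')}.ncard := by
  unfold B
  congr 1
  ext n
  simp only [Set.mem_ofPred_eq]
  constructor
  · rintro ⟨h1, h2, h3⟩
    exact ⟨h1, h2, by rw [← h n h1, ← h (n + 1) (by omega)]; exact h3⟩
  · rintro ⟨h1, h2, h3⟩
    exact ⟨h1, h2, by rw [h n h1, h (n + 1) (by omega)]; exact h3⟩

theorem thin {S : Set ℕ} {S' : Set ℤ} (hS : ∀ n : ℕ, 1 ≤ n → (n ∈ S ↔ -1 * (n : ℤ) ∈ S'))
    (hI : Pool.Agent.H499R2.ND.Inv 1 S') (h1 : ∃ a, 0 < (-1 : ℤ) * a ∧ a ∈ S') (h2 : ∃ a, 0 < (-1 : ℤ) * a ∧ a ∉ S')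
    {a : ℝ} (ha : 1 < a) (K : ℝ) (hK : ∀ᶠ N : ℕ in atTop, (B S N : ℝ) ≤ K * h a N) : False := by
  apply Gen.side_not_thin (Or.inr rfl) hI h1 h2 ha (K + 1)
  filter_upwards [hK, Gen.hA_facts (A := a) (by linarith)] with N h3 h4
  have h5 := Gen.cb_le' (P := fun n : ℕ => (-1 : ℤ) * (n : ℤ) ∈ S') N
  rw [← B_eq hS] at h5
  have h6 : (Bdry.cb (fun n : ℕ => (-1 : ℤ) * (n : ℤ) ∈ S') N : ℝ) ≤ B S N + 1 := by exact_mod_cast h5
  have h7 : h a N = Gen.hA a N := rfl
  rw [h7] at h3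
  linarith [h4.1]

theorem exists_neg {n : ℕ} (hn : 1 ≤ n) {S' : Set ℤ} (h : -1 * (n : ℤ) ∉ S') : ∃ a, 0 < (-1 : ℤ) * a ∧ a ∉ S' :=
  ⟨_, by ring_nf; omega, h⟩

theorem Z3_mem : ∃ a, 0 < (-1 : ℤ) * a ∧ a ∈ Z F3 := ⟨-1, by norm_num, 0, Or.inl rfl⟩

/-- (1) For each of the three cycles the boundary of the basin has at most `K N / √log N` elements up to `N`.
(2) For all `a > 1` and all `K` it has more than `K N / (√log N (log log N) ^ a)` elements up to `N` for infinitely many `N`.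
(3) Every negative odd integer reaches one of the three known cycles under `Syr` if and only if the boundary of the union of
the three basins has, for some `a > 1`, `O (N / (√log N (log log N) ^ a))` elements up to `N`. -/
theorem result :
    (∃ K : ℝ, ∀ c ∈ ({-1, -5, -17} : Set ℤ), ∀ N : ℕ, 2 ≤ N → (B (A c) N : ℝ) ≤ K * (N / √(Real.log N))) ∧
    (∀ c ∈ ({-1, -5, -17} : Set ℤ), ∀ a : ℝ, 1 < a → ∀ K : ℝ, ∃ᶠ N : ℕ in atTop, K * h a N < B (A c) N) ∧
    ((∀ x : ℤ, x < 0 → Odd x → ∃ k : ℕ, Syr^[k] x ∈ Cyc) ↔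
      ∃ a K : ℝ, 1 < a ∧ ∀ᶠ N : ℕ in atTop, (B (A (-1) ∪ A (-5) ∪ A (-17)) N : ℝ) ≤ K * h a N) := by
  refine ⟨?_, ?_, ?_⟩
  · obtain ⟨K, _, hK⟩ := Gen.side_upper
    refine ⟨K, fun c hc N hN => ?_⟩
    rw [B_eq (fun n hn => mem_A (c := c) hn)]
    exact hK (-1) (Or.inr rfl) _ (basin hc).1 N hN
  · intro c hc a ha K
    obtain ⟨h1, h2, h3⟩ := basin hc
    by_contra hcon
    rw [not_frequently] at hcon
    apply thin (fun n hn => mem_A (c := c) hn) h1 h2 h3 ha K
    filter_upwards [hcon] with N hN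
    exact not_lt.1 hN
  · rw [conj_iff]
    constructor
    · intro g
      refine ⟨2, 0, by norm_num, Eventually.of_forall fun N => ?_⟩
      have : {n : ℕ | 1 ≤ n ∧ n ≤ N ∧ ¬ (n ∈ A (-1) ∪ A (-5) ∪ A (-17) ↔ n + 1 ∈ A (-1) ∪ A (-5) ∪ A (-17))} = ∅ := by
        ext n
        simp only [Set.mem_ofPred_eq, Set.mem_empty_iff_false, iff_false, not_and, not_not]
        intro hn _
        exact ⟨fun _ => g _ (by omega), fun _ => g _ hn⟩
      unfold B
      rw [this]
      simp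
    · rintro ⟨a, K, ha, hK⟩ n hn
      by_contra hcon
      rw [mem_U hn] at hcon
      exact thin (S := U) (fun n hn => mem_U hn) (Z_inv cyc3) Z3_mem (exists_neg hn hcon) ha K hK

end Pool.Agent.Results.MP_005f52_nt.NegativeBasins
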