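import Pool.Agent.H620.Inf2.Side
import Pool.Agent.H620.Inf2.Depth
import Pool.Agent.H620.Gen.Neg

/-!
# The basins of the three negative cycles of the Collatz map are not in `AC0`

For `c = -1, -5, -17` let `A c` be the set of the positive integers `n` such that the trajectory of `-n` under the Collatz map
reaches `c`. Let `0 < γ < 1 / 2`.

(a) The total influence of each of the three sets on the `k` lowest binary digits, that is the mean number of the binary digits
of `n < 2 ^ k` whose change moves `n` from the set to the complement or back, is larger than `k ^ γ` for infinitely many `k`.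

(b) For infinitely many `k` and all `D ≥ 2` with `(D - 1) (log log k + 1) ≤ γ log k`, each circuit of depth at most `D` (with gates
NOT, AND, OR of unbounded fan-in) and size at most `exp (k ^ (γ / (D - 1)))` is wrong about the membership in `A c` for more
than `2 ^ k / k ^ (1 - γ)` of the `n < 2 ^ k`. So the question which of the known cycles a negative integer reaches (if any) cannot
be decided by circuits of polynomial size and constant depth, or depth `γ log k / log log k`, even on average. This is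
unconditional.

(c) Every negative odd integer reaches one of the three known cycles if and only if the union of the three sets is in
(nonuniform) `AC0`; also if and only if it is decided by circuits of polynomial size and of depth `a log k / log log k`, for some
`a < 1 / 2`; also if and only if it is decided up to a small proportion `1 / k ^ (1 - γ)` of exceptions by circuits as in (b).

Proof. (b) follows from (a) and from the bound of Linial, Mansour, Nisan and Boppana for the total influence of circuits of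
small depth. For (a), suppose that the total influence is small. Then there is a window `[J, J + b)` of digits, of the
length `b = k ^ δ'`, whose influences are small. Now the values after `J` steps for `n = 2 ^ J U + L` are of the form
`3 ^ o U + v`, for `0 ≤ v < 3 ^ o`, and the values of two lower parts `L`, `L'` with `v`, `v'` near to
each other coalesce after `b` steps for at least half of the digits in the window. So the membership
of `n` is given, for most `n`, by the majority in the part of the partition of the `L` by `o` and by the quotient of `v` by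
`3 ^ μ`. Comparing two such partitions, with pairs of levels `{o, o + 1}` shifted by one, one finds that the membership is a
function of the integer part `q` of `3 ^ (o₀ - μ) n / 2 ^ J` only, for most `n < 2 ^ k`, and the same as that of `3 ^ μ q + r`.
The composition of such statements through all the scales contradicts the existence of the natural density of the set,
which is neither `0` nor `1`.
-/

set_option autoImplicit false

namespace Pool.Agent.Results.MP_005f52_nt.NegativeCircuits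

open Filter
open DomAC0 (Circuit)

/-- The Collatz map on the integers. -/
def C (x : ℤ) : ℤ := if x % 2 = 0 then x / 2 else 3 * x + 1

/-- The Syracuse map on the odd integers. -/
def Syr (x : ℤ) : ℤ := (3 * x + 1) / 2 ^ padicValInt 2 (3 * x + 1)

/-- The elements of the three cycles of `Syr`. -/
def Cyc : Set ℤ := {-1, -5, -7, -17, -25, -37, -55, -41, -61, -91}

/-- The set of the positive integers `n` such that the trajectory of `-n` under the Collatz map reaches `c`. -/
def A (c : ℤ) : Set ℕ := {n | 1 ≤ n ∧ ∃ k : ℕ, C^[k] (-(n : ℤ)) = c}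

/-- The `k` lowest binary digits of `n`. -/
def digits (k n : ℕ) : Fin k → Bool := fun i => n.testBit i

/-- The total influence of `S` on the integers with `k` binary digits: the mean, for `n < 2 ^ k`, of the number of the
`i < k` such that exactly one of `n` and the integer `n xor 2 ^ i`, obtained by changing the digit `i` of `n`, is in `S`. -/
noncomputable def influence (S : Set ℕ) (k : ℕ) : ℝ :=
  ({p : ℕ × ℕ | p.1 < 2 ^ k ∧ p.2 < k ∧ ¬ (p.1 ∈ S ↔ p.1 ^^^ 2 ^ p.2 ∈ S)}.ncard : ℝ) / 2 ^ k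

/-- The number of the `n < 2 ^ k` for which the circuit `Γ` is wrong about the membership in `S`. -/
noncomputable def errors (S : Set ℕ) {k : ℕ} (Γ : Circuit (Fin k)) : ℕ :=
  {n : ℕ | n < 2 ^ k ∧ ¬ (Γ.eval (digits k n) = true ↔ n ∈ S)}.ncard

/-- `S` is hard: for each `0 < c < 1 / 2`, the total influence of `S` is larger than `k ^ c` for infinitely many `k`, and, for
infinitely many `k` and all `D ≥ 2` with `(D - 1) (log log k + 1) ≤ c log k`, each circuit of depth at most `D` and size at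
most `exp (k ^ (c / (D - 1)))` is wrong about the membership in `S` for more than `2 ^ k / k ^ (1 - c)` of the `n < 2 ^ k`. -/
def Hard (S : Set ℕ) : Prop := ∀ c : ℝ, 0 < c → c < 1 / 2 →
  (∃ᶠ k : ℕ in atTop, (k : ℝ) ^ c < influence S k) ∧
  ∃ᶠ k : ℕ in atTop, ∀ D : ℕ, 2 ≤ D → ((D : ℝ) - 1) * (Real.log (Real.log k) + 1) ≤ c * Real.log k →
    ∀ Γ : Circuit (Fin k), Γ.depth ≤ D → (Γ.size : ℝ) ≤ Real.exp ((k : ℝ) ^ (c / ((D : ℝ) - 1))) →
      (2 : ℝ) ^ k / (k : ℝ) ^ (1 - c) < errors S Γ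

/-- `S` is in `AC0`: the membership of the integers `1 ≤ n < 2 ^ k` is decided by circuits of constant depth and polynomial
size. -/
def AC0 (S : Set ℕ) : Prop :=
  ∃ D A : ℕ, ∀ k : ℕ, 1 ≤ k → ∃ Γ : Circuit (Fin k), Γ.depth ≤ D ∧ Γ.size ≤ k ^ A ∧
    ∀ n, 1 ≤ n → n < 2 ^ k → (Γ.eval (digits k n) = true ↔ n ∈ S)

/-- For all large `k`, the membership of the integers `1 ≤ n < 2 ^ k` in `S` is decided by circuits of polynomial size and
of depth at most `a log k / log log k`, where `a < 1 / 2`. -/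
def Poly (S : Set ℕ) : Prop :=
  ∃ (A : ℕ) (a : ℝ), a < 1 / 2 ∧ ∀ᶠ k : ℕ in atTop, ∃ Γ : Circuit (Fin k), Γ.size ≤ k ^ A ∧
    (Γ.depth : ℝ) ≤ a * (Real.log k / Real.log (Real.log k)) ∧
    ∀ n, 1 ≤ n → n < 2 ^ k → (Γ.eval (digits k n) = true ↔ n ∈ S)

/-- For some `0 < c < 1 / 2` and all large `k` there are a `D ≥ 2` with `(D - 1) (log log k + 1) ≤ c log k` and a circuit of
depth at most `D` and size at most `exp (k ^ (c / (D - 1)))` that is wrong about the membership in `S` for at most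
`2 ^ k / k ^ (1 - c)` of the `n < 2 ^ k`. -/
def Approx (S : Set ℕ) : Prop :=
  ∃ c : ℝ, 0 < c ∧ c < 1 / 2 ∧ ∀ᶠ k : ℕ in atTop, ∃ D : ℕ, 2 ≤ D ∧
    ((D : ℝ) - 1) * (Real.log (Real.log k) + 1) ≤ c * Real.log k ∧
    ∃ Γ : Circuit (Fin k), Γ.depth ≤ D ∧ (Γ.size : ℝ) ≤ Real.exp ((k : ℝ) ^ (c / ((D : ℝ) - 1))) ∧
      (errors S Γ : ℝ) ≤ (2 : ℝ) ^ k / (k : ℝ) ^ (1 - c)

open Pool.Agent.H620

/-- The set of the integers whose trajectory reaches one of the given odd integers. -/
def Z (F : Set ℤ) : Set ℤ := {x | ∃ k : ℕ, C^[k] x ∈ F}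

theorem Td_eq (x : ℤ) : (Pool.Agent.H499R2.ND.Td 1 x = C x) ∨
    (Pool.Agent.H499R2.ND.Td 1 x = C (C x) ∧ x % 2 = 1) := by
  unfold Pool.Agent.H499R2.ND.Td C
  by_cases h : x % 2 = 0
  · left; rw [if_pos h, if_pos h]
  · right
    rw [if_neg h, if_neg h, if_pos (by omega)]
    exact ⟨rfl, by omega⟩

theorem Z_C {F : Set ℤ} (hF : ∀ x ∈ F, ∃ k : ℕ, C^[k] (C x) ∈ F) (x : ℤ) : x ∈ Z F ↔ C x ∈ Z F := by
  constructor
  · rintro ⟨k, hk⟩
    rcases k with _ | k
    · obtain ⟨j, hj⟩ := hF x hk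
      exact ⟨j, hj⟩
    · exact ⟨k, by rw [Function.iterate_succ_apply] at hk; exact hk⟩
  · rintro ⟨k, hk⟩
    exact ⟨k + 1, by rw [Function.iterate_succ_apply]; exact hk⟩

theorem Z_inv {F : Set ℤ} (hF : ∀ x ∈ F, ∃ k : ℕ, C^[k] (C x) ∈ F) : Pool.Agent.H499R2.ND.Inv 1 (Z F) := by
  intro x
  rcases Td_eq x with h | ⟨h, _⟩
  · rw [h]; exact Z_C hF x
  · rw [h, ← Z_C hF (C x)]; exact Z_C hF x

theorem mem_A {c : ℤ} {n : ℕ} (hn : 1 ≤ n) : n ∈ A c ↔ -1 * (n : ℤ) ∈ Z {c} := by
  rw [neg_one_mul]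
  constructor
  · rintro ⟨_, k, hk⟩; exact ⟨k, hk⟩
  · rintro ⟨k, hk⟩; exact ⟨hn, k, hk⟩

theorem cyc1 : ∀ x ∈ ({-1} : Set ℤ), ∃ k : ℕ, C^[k] (C x) ∈ ({-1} : Set ℤ) := by
  rintro x rfl; exact ⟨1, by decide⟩

theorem cyc5 : ∀ x ∈ ({-5} : Set ℤ), ∃ k : ℕ, C^[k] (C x) ∈ ({-5} : Set ℤ) := by
  rintro x rfl; exact ⟨4, by decide⟩

theorem cyc17 : ∀ x ∈ ({-17} : Set ℤ), ∃ k : ℕ, C^[k] (C x) ∈ ({-17} : Set ℤ) := by
  rintro x rfl; exact ⟨17, by decide⟩

/-- A trajectory cannot reach two of the three numbers. -/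
theorem sep_iter {F : Set ℤ} (hF : ∀ x ∈ F, C x ∈ F) {x : ℤ} (hx : x ∈ F) (k : ℕ) : C^[k] x ∈ F := by
  induction k generalizing x with
  | zero => exact hx
  | succ k ih => rw [Function.iterate_succ_apply]; exact ih (hF x hx)

def F1 : Finset ℤ := {-1, -2}
def F5 : Finset ℤ := {-5, -14, -7, -20, -10}

theorem not_reach {F : Finset ℤ} (hF : ∀ x ∈ F, C x ∈ F) {x c : ℤ} (hx : x ∈ F) (hc : c ∉ F) : x ∉ Z {c} := by
  rintro ⟨k, hk⟩
  have h1 := sep_iter (F := (F : Set ℤ)) (fun x hx => hF x hx) hx k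
  rw [Set.mem_singleton_iff] at hk
  rw [hk] at h1
  exact hc h1

theorem basin {c : ℤ} (hc : c = -1 ∨ c = -5 ∨ c = -17) : Pool.Agent.H499R2.ND.Inv 1 (Z {c}) ∧
    (∃ a, 0 < (-1 : ℤ) * a ∧ a ∈ Z {c}) ∧ (∃ a, 0 < (-1 : ℤ) * a ∧ a ∉ Z {c}) := by
  rcases hc with rfl | rfl | rfl
  · exact ⟨Z_inv cyc1, ⟨-1, by norm_num, 0, rfl⟩, -5, by norm_num,
      not_reach (F := F5) (by decide) (by decide) (by decide)⟩
  · exact ⟨Z_inv cyc5, ⟨-5, by norm_num, 0, rfl⟩, -1, by norm_num,
      not_reach (F := F1) (by decide) (by decide) (by decide)⟩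
  · exact ⟨Z_inv cyc17, ⟨-17, by norm_num, 0, rfl⟩, -1, by norm_num,
      not_reach (F := F1) (by decide) (by decide) (by decide)⟩

/-- The union of the three basins. -/
def U : Set ℕ := A (-1) ∪ A (-5) ∪ A (-17)

def F3 : Set ℤ := {-1, -5, -17}

theorem cyc3 : ∀ x ∈ F3, ∃ k : ℕ, C^[k] (C x) ∈ F3 := by
  rintro x (rfl | rfl | rfl)
  · exact ⟨1, by left; decide⟩
  · exact ⟨4, by right; left; decide⟩
  · exact ⟨17, by right; right; decide⟩

theorem mem_U {n : ℕ} (hn : 1 ≤ n) : n ∈ U ↔ -1 * (n : ℤ) ∈ Z F3 := by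
  rw [neg_one_mul]
  constructor
  · rintro ((⟨_, k, hk⟩ | ⟨_, k, hk⟩) | ⟨_, k, hk⟩)
    · exact ⟨k, by rw [hk]; left; rfl⟩
    · exact ⟨k, by rw [hk]; right; left; rfl⟩
    · exact ⟨k, by rw [hk]; right; right; rfl⟩
  · rintro ⟨k, hk | hk | hk⟩
    · exact Or.inl (Or.inl ⟨hn, k, hk⟩)
    · exact Or.inl (Or.inr ⟨hn, k, hk⟩)
    · exact Or.inr ⟨hn, k, hk⟩

theorem conj_iff : (∀ x : ℤ, x < 0 → Odd x → ∃ k : ℕ, Syr^[k] x ∈ Cyc) ↔ ∀ n : ℕ, 1 ≤ n → n ∈ U := by
  have h := Neg.conj_iff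
  constructor
  · intro g n hn
    obtain ⟨k, hk⟩ := h.1 g n hn
    rcases hk with hk | hk | hk
    · exact Or.inl (Or.inl ⟨hn, k, hk⟩)
    · exact Or.inl (Or.inr ⟨hn, k, hk⟩)
    · exact Or.inr ⟨hn, k, hk⟩
  · intro g
    apply h.2
    intro n hn
    rcases g n hn with ((⟨_, k, hk⟩ | ⟨_, k, hk⟩) | ⟨_, k, hk⟩)
    · exact ⟨k, Or.inl hk⟩
    · exact ⟨k, Or.inr (Or.inl hk)⟩
    · exact ⟨k, Or.inr (Or.inr hk)⟩

theorem exists_neg {n : ℕ} (hn : 1 ≤ n) {S' : Set ℤ} (h : -1 * (n : ℤ) ∉ S') : ∃ a, 0 < (-1 : ℤ) * a ∧ a ∉ S' :=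
  ⟨_, by ring_nf; omega, h⟩

theorem Z3_mem : ∃ a, 0 < (-1 : ℤ) * a ∧ a ∈ Z F3 := ⟨-1, by norm_num, 0, Or.inl rfl⟩

theorem large {S : Set ℕ} {S' : Set ℤ} (hS : ∀ n : ℕ, 1 ≤ n → (n ∈ S ↔ -1 * (n : ℤ) ∈ S'))
    (hI : Pool.Agent.H499R2.ND.Inv 1 S') (h1 : ∃ a, 0 < (-1 : ℤ) * a ∧ a ∈ S') (h2 : ∃ a, 0 < (-1 : ℤ) * a ∧ a ∉ S') :
    Inf2.Large (fun n => n ∈ S) :=
  Inf2.Large.congr (g := fun n : ℕ => (-1 : ℤ) * (n : ℤ) ∈ S') hS fun η hη => Inf2.side_influence (Or.inr rfl) hI h1 h2 η hη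

/-- (1) The three basins are hard. (2) The following are equivalent: every negative odd integer reaches one of the three
known cycles; the union of the three basins is in `AC0`; it is decided by circuits of polynomial size and depth at most
`a log k / log log k`, where `a < 1 / 2`; it is decided up to a proportion `1 / k ^ (1 - c)` of exceptions by circuits of the size
and depth in the definition of `Hard`. -/
theorem result :
    (∀ c ∈ ({-1, -5, -17} : Set ℤ), Hard (A c)) ∧
    List.TFAE [∀ x : ℤ, x < 0 → Odd x → ∃ k : ℕ, Syr^[k] x ∈ Cyc, AC0 (A (-1) ∪ A (-5) ∪ A (-17)),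
      Poly (A (-1) ∪ A (-5) ∪ A (-17)), Approx (A (-1) ∪ A (-5) ∪ A (-17))] := by
  refine ⟨fun c hc => ?_, ?_⟩
  · obtain ⟨h1, h2, h3⟩ := basin hc
    have h4 := large (fun n hn => mem_A (c := c) hn) h1 h2 h3
    exact fun γ hγ0 hγ => ⟨Inf2.large_infl h4 hγ, Inf2.large_depth h4 hγ0 hγ⟩
  · rw [conj_iff]
    refine Inf2.tfae_of (S := U) (fun h => Inf2.AC0_all h) (fun h => ?_)
    push Not at h
    obtain ⟨n, hn, hnU⟩ := h
    rw [mem_U hn] at hnU
    exact large (fun n hn => mem_U hn) (Z_inv cyc3) Z3_mem (exists_neg hn hnU)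

end Pool.Agent.Results.MP_005f52_nt.NegativeCircuits
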