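import Pool.Agent.H620.Gen.Side
import Pool.Agent.H620.Gen.Neg

/-!
# The basins of the three negative cycles of the Collatz map are not near to morphic sets

For `c = -1, -5, -17` let `A c` be the set of the positive integers `n` such that the trajectory of `-n` reaches `c`. A set of
integers is called morphic if its indicator sequence is a morphic word: the image, under a map from the letters to
`{0, 1}`, of the infinite fixed point of a morphism `σ` with `σ(a) = a u`, over a finite alphabet. The automatic sets in all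
bases are morphic, and so are the sets recognised by automata reading any abstract numeration system based on a regular
language, the set of the squares, etc.

Theorem. None of the three sets `A c` agrees with a morphic set up to `O (N / (√log N (log log N) ^ a))` of the `n ≤ N`, `a > 1`; in
particular none is morphic. The conjecture that every negative odd integer reaches one of the three cycles is
equivalent to the statement that the union of the three sets agrees with some morphic set up to so many exceptions.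

Proof. Let `C w N` be the number of the `i < N` with `w i ≠ w (i+1)`. For an invariant set this is `O (N / √log N)` (coalescence
of the trajectories of neighbours), so `C w N = o(N)` if `w` is near to an invariant set. For a morphic word `w` this
implies `C w N = O (N / log N)`: the numbers `f k` of letters and `g k` of changes in the `k`-th image of the first letter are of
the form `u (T ^ k v)` for linear maps `T` of finite dimensional spaces, and two such sequences with `g k = o (f k)` have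
`g k = O (f k / k)`. But the boundary of a nontrivial invariant set is not so thin (`Gen.side_not_thin`).
-/

set_option autoImplicit false

namespace Pool.Agent.Results.MP_005f52_nt.NegativeMorphic

open Filter

/-- The Collatz map on the integers. -/
def C (x : ℤ) : ℤ := if x % 2 = 0 then x / 2 else 3 * x + 1

/-- The Syracuse map on the odd integers. -/
def Syr (x : ℤ) : ℤ := (3 * x + 1) / 2 ^ padicValInt 2 (3 * x + 1)

/-- The elements of the three cycles of `Syr`. -/
def Cyc : Set ℤ := {-1, -5, -7, -17, -25, -37, -55, -41, -61, -91}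

/-- The set of the positive integers `n` such that the trajectory of `-n` under the Collatz map reaches `c`. -/
def A (c : ℤ) : Set ℕ := {n | 1 ≤ n ∧ ∃ k : ℕ, C^[k] (-(n : ℤ)) = c}

/-- The image of a word `W` under the morphism that replaces each letter `b` by the word `σ b`. -/
def subst {A : Type} (σ : A → List A) (W : List A) : List A := W.flatMap σ

/-- Morphic sets: there are a finite alphabet `A`, a morphism `σ` with nonempty words `σ b`, a letter `a` such that
`σ a` is `a` followed by a nonempty word, and a set `G` of letters such that `i ∈ R` if and only if the letter with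
the index `i` of `σ ^ k a` is in `G`, for all `k` and all indices `i` of letters of `σ ^ k a`. -/
def Morphic (R : Set ℕ) : Prop :=
  ∃ (A : Type) (_ : Finite A) (σ : A → List A) (a : A) (G : A → Prop), (∀ b, σ b ≠ []) ∧
    (∃ u, u ≠ [] ∧ σ a = a :: u) ∧
    ∀ (k i : ℕ) (hi : i < ((subst σ)^[k] [a]).length), i ∈ R ↔ G ((subst σ)^[k] [a])[i]

/-- The number of the integers `1 ≤ n ≤ N` which are in exactly one of the sets `S`, `R`. -/
noncomputable def dist (S R : Set ℕ) (N : ℕ) : ℕ := {n : ℕ | 1 ≤ n ∧ n ≤ N ∧ ¬ (n ∈ S ↔ n ∈ R)}.ncard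

/-- The bound `N / (√log N (log log N) ^ a)`. -/
noncomputable def h (a : ℝ) (N : ℕ) : ℝ := N / (√(Real.log N) * Real.log (Real.log N) ^ a)

open Pool.Agent.H620

/-- The set of the integers whose trajectory reaches one of the given odd integers. -/
def Z (F : Set ℤ) : Set ℤ := {x | ∃ k : ℕ, C^[k] x ∈ F}

theorem Td_eq (x : ℤ) : (Pool.Agent.H499R2.ND.Td 1 x = C x) ∨
    (Pool.Agent.H499R2.ND.Td 1 x = C (C x) ∧ x % 2 = 1) := by
  unfold Pool.Agent.H499R2.ND.Td C
  by_cases h : x % 2 = 0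
  · left; rw [if_pos h, if_pos h]
  · right
    rw [if_neg h, if_neg h, if_pos (by omega)]
    exact ⟨rfl, by omega⟩

theorem Z_C {F : Set ℤ} (hF : ∀ x ∈ F, ∃ k : ℕ, C^[k] (C x) ∈ F) (x : ℤ) : x ∈ Z F ↔ C x ∈ Z F := by
  constructor
  · rintro ⟨k, hk⟩
    rcases k with _ | k
    · obtain ⟨j, hj⟩ := hF x hk
      exact ⟨j, hj⟩
    · exact ⟨k, by rw [Function.iterate_succ_apply] at hk; exact hk⟩
  · rintro ⟨k, hk⟩
    exact ⟨k + 1, by rw [Function.iterate_succ_apply]; exact hk⟩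

theorem Z_inv {F : Set ℤ} (hF : ∀ x ∈ F, ∃ k : ℕ, C^[k] (C x) ∈ F) : Pool.Agent.H499R2.ND.Inv 1 (Z F) := by
  intro x
  rcases Td_eq x with h | ⟨h, _⟩
  · rw [h]; exact Z_C hF x
  · rw [h, ← Z_C hF (C x)]; exact Z_C hF x

theorem mem_A {c : ℤ} {n : ℕ} (hn : 1 ≤ n) : n ∈ A c ↔ -1 * (n : ℤ) ∈ Z {c} := by
  rw [neg_one_mul]
  constructor
  · rintro ⟨_, k, hk⟩; exact ⟨k, hk⟩
  · rintro ⟨k, hk⟩; exact ⟨hn, k, hk⟩

theorem cyc1 : ∀ x ∈ ({-1} : Set ℤ), ∃ k : ℕ, C^[k] (C x) ∈ ({-1} : Set ℤ) := by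
  rintro x rfl; exact ⟨1, by decide⟩

theorem cyc5 : ∀ x ∈ ({-5} : Set ℤ), ∃ k : ℕ, C^[k] (C x) ∈ ({-5} : Set ℤ) := by
  rintro x rfl; exact ⟨4, by decide⟩

theorem cyc17 : ∀ x ∈ ({-17} : Set ℤ), ∃ k : ℕ, C^[k] (C x) ∈ ({-17} : Set ℤ) := by
  rintro x rfl; exact ⟨17, by decide⟩

/-- A trajectory cannot reach two of the three numbers. -/
theorem sep_iter {F : Set ℤ} (hF : ∀ x ∈ F, C x ∈ F) {x : ℤ} (hx : x ∈ F) (k : ℕ) : C^[k] x ∈ F := by
  induction k generalizing x with
  | zero => exact hx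
  | succ k ih => rw [Function.iterate_succ_apply]; exact ih (hF x hx)

def F1 : Finset ℤ := {-1, -2}
def F5 : Finset ℤ := {-5, -14, -7, -20, -10}
def F17 : Finset ℤ := {-17, -50, -25, -74, -37, -110, -55, -164, -82, -41, -122, -61, -182, -91, -272, -136, -68, -34}

theorem not_reach {F : Finset ℤ} (hF : ∀ x ∈ F, C x ∈ F) {x c : ℤ} (hx : x ∈ F) (hc : c ∉ F) : x ∉ Z {c} := by
  rintro ⟨k, hk⟩
  have h1 := sep_iter (F := (F : Set ℤ)) (fun x hx => hF x hx) hx k
  rw [Set.mem_singleton_iff] at hk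
  rw [hk] at h1
  exact hc h1

theorem basin {c : ℤ} (hc : c = -1 ∨ c = -5 ∨ c = -17) : Pool.Agent.H499R2.ND.Inv 1 (Z {c}) ∧
    (∃ a, 0 < (-1 : ℤ) * a ∧ a ∈ Z {c}) ∧ (∃ a, 0 < (-1 : ℤ) * a ∧ a ∉ Z {c}) := by
  rcases hc with rfl | rfl | rfl
  · exact ⟨Z_inv cyc1, ⟨-1, by norm_num, 0, rfl⟩, -5, by norm_num,
      not_reach (F := F5) (by decide) (by decide) (by decide)⟩
  · exact ⟨Z_inv cyc5, ⟨-5, by norm_num, 0, rfl⟩, -1, by norm_num,
      not_reach (F := F1) (by decide) (by decide) (by decide)⟩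
  · exact ⟨Z_inv cyc17, ⟨-17, by norm_num, 0, rfl⟩, -1, by norm_num,
      not_reach (F := F1) (by decide) (by decide) (by decide)⟩

/-- The union of the three basins. -/
def U : Set ℕ := A (-1) ∪ A (-5) ∪ A (-17)

def F3 : Set ℤ := {-1, -5, -17}

theorem cyc3 : ∀ x ∈ F3, ∃ k : ℕ, C^[k] (C x) ∈ F3 := by
  rintro x (rfl | rfl | rfl)
  · exact ⟨1, by left; decide⟩
  · exact ⟨4, by right; left; decide⟩
  · exact ⟨17, by right; right; decide⟩

theorem mem_U {n : ℕ} (hn : 1 ≤ n) : n ∈ U ↔ -1 * (n : ℤ) ∈ Z F3 := by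
  rw [neg_one_mul]
  constructor
  · rintro ((⟨_, k, hk⟩ | ⟨_, k, hk⟩) | ⟨_, k, hk⟩)
    · exact ⟨k, by rw [hk]; left; rfl⟩
    · exact ⟨k, by rw [hk]; right; left; rfl⟩
    · exact ⟨k, by rw [hk]; right; right; rfl⟩
  · rintro ⟨k, hk | hk | hk⟩
    · exact Or.inl (Or.inl ⟨hn, k, hk⟩)
    · exact Or.inl (Or.inr ⟨hn, k, hk⟩)
    · exact Or.inr ⟨hn, k, hk⟩

theorem C_eq : C = Neg.C := rfl

theorem conj_iff : (∀ x : ℤ, x < 0 → Odd x → ∃ k : ℕ, Syr^[k] x ∈ Cyc) ↔ ∀ n : ℕ, 1 ≤ n → n ∈ U := by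
  have h := Neg.conj_iff
  constructor
  · intro g n hn
    obtain ⟨k, hk⟩ := h.1 g n hn
    rcases hk with hk | hk | hk
    · exact Or.inl (Or.inl ⟨hn, k, hk⟩)
    · exact Or.inl (Or.inr ⟨hn, k, hk⟩)
    · exact Or.inr ⟨hn, k, hk⟩
  · intro g
    apply h.2
    intro n hn
    rcases g n hn with ((⟨_, k, hk⟩ | ⟨_, k, hk⟩) | ⟨_, k, hk⟩)
    · exact ⟨k, Or.inl hk⟩
    · exact ⟨k, Or.inr (Or.inl hk)⟩
    · exact ⟨k, Or.inr (Or.inr hk)⟩

theorem dist_eq {S : Set ℕ} {S' : Set ℤ} (h : ∀ n : ℕ, 1 ≤ n → (n ∈ S ↔ -1 * (n : ℤ) ∈ S')) (R : Set ℕ) (N : ℕ) :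
    dist S R N = {n : ℕ | 1 ≤ n ∧ n ≤ N ∧ ¬ ((-1 : ℤ) * (n : ℤ) ∈ S' ↔ n ∈ R)}.ncard := by
  unfold dist
  congr 1
  ext n
  simp only [Set.mem_ofPred_eq]
  constructor
  · rintro ⟨h1, h2, h3⟩
    exact ⟨h1, h2, by rw [← h n h1]; exact h3⟩
  · rintro ⟨h1, h2, h3⟩
    exact ⟨h1, h2, by rw [h n h1]; exact h3⟩

theorem near {S : Set ℕ} {S' : Set ℤ} (hS : ∀ n : ℕ, 1 ≤ n → (n ∈ S ↔ -1 * (n : ℤ) ∈ S'))
    (hI : Pool.Agent.H499R2.ND.Inv 1 S') (h1 : ∃ a, 0 < (-1 : ℤ) * a ∧ a ∈ S') (h2 : ∃ a, 0 < (-1 : ℤ) * a ∧ a ∉ S')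
    {a : ℝ} (ha : 1 < a) {R : Set ℕ} (hR : Morphic R) (K : ℝ)
    (hK : ∀ᶠ N : ℕ in atTop, (dist S R N : ℝ) ≤ K * h a N) : False := by
  apply Gen.side_not_near (Or.inr rfl) hI h1 h2 ha (w := fun n => n ∈ R) hR K
  filter_upwards [hK] with N h3
  rw [dist_eq hS] at h3
  exact h3

theorem exists_neg {n : ℕ} (hn : 1 ≤ n) {S' : Set ℤ} (h : -1 * (n : ℤ) ∉ S') : ∃ a, 0 < (-1 : ℤ) * a ∧ a ∉ S' :=
  ⟨_, by ring_nf; omega, h⟩

theorem Z3_mem : ∃ a, 0 < (-1 : ℤ) * a ∧ a ∈ Z F3 := ⟨-1, by norm_num, 0, Or.inl rfl⟩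

/-- (1) None of the basins of the three negative cycles agrees with a morphic set up to `O (N / (√log N (log log N) ^ a))`
exceptions, for any `a > 1`. (2) Every negative odd integer reaches one of the three known cycles under `Syr` if and only
if the union of the three basins agrees, for some `a > 1`, with some morphic set up to `O (N / (√log N (log log N) ^ a))`
exceptions. -/
theorem result :
    (∀ c ∈ ({-1, -5, -17} : Set ℤ), ∀ R : Set ℕ, Morphic R → ∀ a : ℝ, 1 < a → ∀ K : ℝ,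
      ∃ᶠ N : ℕ in atTop, K * h a N < dist (A c) R N) ∧
    ((∀ x : ℤ, x < 0 → Odd x → ∃ k : ℕ, Syr^[k] x ∈ Cyc) ↔
      ∃ (R : Set ℕ) (a K : ℝ), Morphic R ∧ 1 < a ∧
        ∀ᶠ N : ℕ in atTop, (dist (A (-1) ∪ A (-5) ∪ A (-17)) R N : ℝ) ≤ K * h a N) := by
  have huniv : Morphic Set.univ := Pool.Agent.H620.Morph.morphic_true
  refine ⟨?_, ?_⟩
  · intro c hc R hR a ha K
    obtain ⟨h1, h2, h3⟩ := basin hc
    by_contra hcon
    rw [not_frequently] at hcon
    apply near (fun n hn => mem_A (c := c) hn) h1 h2 h3 ha hR K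
    filter_upwards [hcon] with N hN
    exact not_lt.1 hN
  · rw [conj_iff]
    constructor
    · intro g
      refine ⟨Set.univ, 2, 0, huniv, by norm_num, Eventually.of_forall fun N => ?_⟩
      have : {n : ℕ | 1 ≤ n ∧ n ≤ N ∧ ¬ (n ∈ A (-1) ∪ A (-5) ∪ A (-17) ↔ n ∈ (Set.univ : Set ℕ))} = ∅ := by
        ext n
        constructor
        · rintro ⟨h1, _, h2⟩
          exact (h2 ⟨fun _ => Set.mem_univ _, fun _ => g n h1⟩).elim
        · intro h; exact h.elim
      unfold dist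
      rw [this]
      simp
    · rintro ⟨R, a, K, hR, ha, hK⟩ n hn
      by_contra hcon
      rw [mem_U hn] at hcon
      exact near (S := U) (fun n hn => mem_U hn) (Z_inv cyc3) Z3_mem (exists_neg hn hcon) ha hR K hK

end Pool.Agent.Results.MP_005f52_nt.NegativeMorphic
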