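import Pool.Agent.H620.Thr.Side
import Pool.Agent.H620.Inf2.Depth

/-!
# The critical time for negative integers is not decided by circuits of small depth

Let `T` be the `3x+1` function on the integers, and let `F` be a finite set of integers with a negative element that is
not divisible by `3`; for example one of the three known negative cycles, or their union, or `{-1}`, `{-5}`, `{-17}`. For
almost all the `n` for which the trajectory of `-n` meets `F` the time when it meets `F` is `(2 / log (4/3) + o(1)) log n`
(library). Here the critical bound `2 / log (4/3) log n + c` is considered, for each real `c`: the set of the `n` such that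
the trajectory of `-n` meets `F` within so many steps is hard in the following sense, unconditionally: for each
`0 < g < 1 / 2`

(a) its total influence on the `k` lowest binary digits, that is the mean number of the binary digits of `n < 2 ^ k` whose
change moves `n` from the set to its complement or back, is larger than `k ^ g`, for infinitely many `k`;

(b) for infinitely many `k` and all `D ≥ 2` with `(D - 1) (log log k + 1) ≤ g log k`, each circuit of depth at most `D` (with
gates NOT, AND, OR of unbounded fan-in) and size at most `exp (k ^ (g / (D - 1)))` is wrong about the membership in the set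
for more than `2 ^ k / k ^ (1 - g)` of the `n < 2 ^ k`.

These sets are not invariant under `T`, and no two different trajectories need to be separated: the result is new also
for the union `F` of the three cycles, where the conjecture is that all the trajectories of negative integers meet `F`, and
even under this conjecture.

Proof. The same as for the positive integers (see `Pool/Agent/H620/Thr`): only for the constant `2 / log (4/3)` the bounds for
`n` and for a typical `T ^ J n` are the same. If the total influence is small then there is a window `[J, J + b)` of digits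
with small influences; replace the bound by a constant on the intervals `[2 ^ (J + b) U, 2 ^ (J + b) (U + 1))`. By the rate of
coalescence the membership of `n` is given, for most `n`, by the majority in the part of the partition of the low digits `L`
by the number `o` of odd terms and by the quotient of the value of `T ^ J L` by `3 ^ μ`. Comparing two such partitions the
membership is a function of the integral part of `3 ^ (J / 2 - μ) n / 2 ^ J` only, and the composition through all scales
contradicts the existence of the natural density of the set, which is `δ / 2`, where `0 < δ ≤ 1` is the density of the `n` for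
which the trajectory of `-n` meets `F` (central limit theorem for the hitting times, library).
-/

set_option autoImplicit false

namespace Pool.Agent.Results.MP_005f52_nt.NegativeThresholds

open Filter
open DomAC0 (Circuit)

/-- The `3x+1` function on the integers. -/
def T (x : ℤ) : ℤ := if x % 2 = 0 then x / 2 else (3 * x + 1) / 2

/-- The positive integers `n` such that the trajectory of `-n` meets `F` within `2 / log (4/3) * log n + c` steps. -/
def Within (F : Finset ℤ) (c : ℝ) : Set ℕ :=
  {n | 1 ≤ n ∧ ∃ k : ℕ, (k : ℝ) ≤ 2 / Real.log (4 / 3) * Real.log n + c ∧ T^[k] (-(n : ℤ)) ∈ F}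

/-- The `k` lowest binary digits of `n`. -/
def digits (k n : ℕ) : Fin k → Bool := fun i => n.testBit i

/-- The total influence of `S` on the integers with `k` binary digits: the mean, for `n < 2 ^ k`, of the number of the
`i < k` such that exactly one of `n` and the integer `n xor 2 ^ i`, obtained by changing the digit `i` of `n`, is in `S`. -/
noncomputable def influence (S : Set ℕ) (k : ℕ) : ℝ :=
  ({p : ℕ × ℕ | p.1 < 2 ^ k ∧ p.2 < k ∧ ¬ (p.1 ∈ S ↔ p.1 ^^^ 2 ^ p.2 ∈ S)}.ncard : ℝ) / 2 ^ k

/-- The number of the `n < 2 ^ k` for which the circuit `Γ` is wrong about the membership in `S`. -/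
noncomputable def errors (S : Set ℕ) {k : ℕ} (Γ : Circuit (Fin k)) : ℕ :=
  {n : ℕ | n < 2 ^ k ∧ ¬ (Γ.eval (digits k n) = true ↔ n ∈ S)}.ncard

/-- `S` is hard: for each `0 < g < 1 / 2`, the total influence of `S` is larger than `k ^ g` for infinitely many `k`, and, for
infinitely many `k` and all `D ≥ 2` with `(D - 1) (log log k + 1) ≤ g log k`, each circuit of depth at most `D` and size at
most `exp (k ^ (g / (D - 1)))` is wrong about the membership in `S` for more than `2 ^ k / k ^ (1 - g)` of the `n < 2 ^ k`. -/
def Hard (S : Set ℕ) : Prop := ∀ g : ℝ, 0 < g → g < 1 / 2 →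
  (∃ᶠ k : ℕ in atTop, (k : ℝ) ^ g < influence S k) ∧
  ∃ᶠ k : ℕ in atTop, ∀ D : ℕ, 2 ≤ D → ((D : ℝ) - 1) * (Real.log (Real.log k) + 1) ≤ g * Real.log k →
    ∀ Γ : Circuit (Fin k), Γ.depth ≤ D → (Γ.size : ℝ) ≤ Real.exp ((k : ℝ) ^ (g / ((D : ℝ) - 1))) →
      (2 : ℝ) ^ k / (k : ℝ) ^ (1 - g) < errors S Γ

open Pool.Agent.H620

theorem Hard.of_large {S : Set ℕ} (h : Inf2.Large (fun n => n ∈ S)) : Hard S :=
  fun _ hc0 hc => ⟨Inf2.large_infl h hc, Inf2.large_depth h hc0 hc⟩

theorem mem_iff (F : Finset ℤ) (c : ℝ) {n : ℕ} (hn : 1 ≤ n) :
    n ∈ Within F c ↔ Thr.RS (-1) F (2 / Real.log (4 / 3) * Real.log n + c) (n : ℤ) := by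
  unfold Thr.RS
  rw [neg_one_mul]
  constructor
  · rintro ⟨_, k, h1, h2⟩
    exact ⟨k, h1, h2⟩
  · rintro ⟨k, h1, h2⟩
    exact ⟨hn, k, h1, h2⟩

/-- **The critical time for negative integers.** Let `F` be a finite set of integers with a negative element that is not
divisible by `3`, and let `c` be a real number. The set of the positive integers `n` such that the trajectory of `-n` meets
`F` within `2 / log (4/3) log n + c` steps is hard. -/
theorem result : ∀ F : Finset ℤ, (∃ a ∈ F, a < 0 ∧ ¬ (3 : ℤ) ∣ a) → ∀ c : ℝ, Hard (Within F c) := by
  rintro F ⟨a, ha, h1, h2⟩ c
  exact Hard.of_large (Inf2.Large.congr (fun _ hn => mem_iff F c hn)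
    (Thr.large_S (Or.inr rfl) F ⟨a, ha, by omega, h2⟩ c))

end Pool.Agent.Results.MP_005f52_nt.NegativeThresholds
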